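import Mathlib

set_option autoImplicit false

namespace Pool.Agent.H626Z.Frenet

open scoped ContDiff

/-- A smooth closed curve `S¹ = ℝ / 2πℤ → ℝⁿ`, given as a smooth `2π`-periodic map. -/
def IsClosedCurve {n : ℕ} (γ : ℝ → EuclideanSpace ℝ (Fin n)) : Prop :=
  ContDiff ℝ ∞ γ ∧ Function.Periodic γ (2 * Real.pi)

/-- The derivatives `γ'(t), …, γ^(n)(t)`. -/
noncomputable def jet {n : ℕ} (γ : ℝ → EuclideanSpace ℝ (Fin n)) (t : ℝ) (i : Fin n) :
    EuclideanSpace ℝ (Fin n) :=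
  iteratedDeriv (i + 1) γ t

/-- Nondegenerate: `γ'(t), …, γ^(n)(t)` are linearly independent for every `t`. -/
def Nondegenerate {n : ℕ} (γ : ℝ → EuclideanSpace ℝ (Fin n)) : Prop :=
  ∀ t, LinearIndependent ℝ (jet γ t)

/-- The plane unit circle traversed `m` times, `t ↦ (cos mt, sin mt, 0, …, 0)`. -/
noncomputable def circ (n m : ℕ) (t : ℝ) : EuclideanSpace ℝ (Fin n) :=
  WithLp.toLp 2 fun i : Fin n =>
    if (i : ℕ) = 0 then Real.cos (m * t) else if (i : ℕ) = 1 then Real.sin (m * t) else 0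

/-- Every `C^∞`-neighbourhood of `circ n m` contains a nondegenerate closed curve. -/
def Perturbable (n m : ℕ) : Prop :=
  ∀ (k : ℕ) (ε : ℝ), 0 < ε → ∃ γ : ℝ → EuclideanSpace ℝ (Fin n),
    IsClosedCurve γ ∧ Nondegenerate γ ∧
      ∀ j ≤ k, ∀ t, ‖iteratedDeriv j γ t - iteratedDeriv j (circ n m) t‖ < ε

/-- `μ(n)`: the least `m ≥ 1` such that `circ n m` can be perturbed to a nondegenerate curve. -/
noncomputable def mu (n : ℕ) : ℕ :=
  sInf {m | 1 ≤ m ∧ Perturbable n m}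

end Pool.Agent.H626Z.Frenet
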