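import Pool.Agent.H626Z.Frenet.Defs

set_option autoImplicit false

namespace Pool.Agent.H626Z.Frenet

/-- The Frenet frame: Gram-Schmidt orthonormalisation of `γ'(t), …, γ^(n)(t)`
(index `i : Fin n` gives `e_{i+1}`). -/
noncomputable def frame {n : ℕ} (γ : ℝ → EuclideanSpace ℝ (Fin n)) (i : Fin n) (t : ℝ) :
    EuclideanSpace ℝ (Fin n) :=
  InnerProductSpace.gramSchmidtNormed ℝ (jet γ t) i

/-- The curvatures (index `i : Fin (n - 1)` gives `κ_{i+1}`): the coefficient of `e_{i+2}` in the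
arc length derivative of `e_{i+1}`. -/
noncomputable def curvature {n : ℕ} (γ : ℝ → EuclideanSpace ℝ (Fin n)) (i : Fin (n - 1))
    (t : ℝ) : ℝ :=
  inner ℝ (deriv (frame γ ⟨i, by omega⟩) t) (frame γ ⟨i + 1, by omega⟩ t) / ‖deriv γ t‖

/-- The length `∫ (κ₁² + ⋯ + κ_{n-1}²)^{1/2} ds` of the Frenet frame, `ds = |γ'(t)| dt`. -/
noncomputable def frameLength {n : ℕ} (γ : ℝ → EuclideanSpace ℝ (Fin n)) : ℝ :=
  ∫ t in (0 : ℝ)..(2 * Real.pi), Real.sqrt (∑ i, curvature γ i t ^ 2) * ‖deriv γ t‖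

end Pool.Agent.H626Z.Frenet
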