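import Mathlib

set_option autoImplicit false

namespace Pool.Agent.H626Z.Frenet

open Set Filter Topology Real

variable {E : Type*} [NormedAddCommGroup E] [InnerProductSpace ℝ E]

lemma inner_deriv_zero {T T' : ℝ → E} (hT : ∀ t, HasDerivAt T (T' t) t) (h1 : ∀ t, ‖T t‖ = 1)
    (t : ℝ) : inner ℝ (T t) (T' t) = 0 := by
  have h := (hT t).inner ℝ (hT t)
  have e : (fun t => inner ℝ (T t) (T t)) = fun _ => (1 : ℝ) := by
    funext s; rw [real_inner_self_eq_norm_sq, h1]; norm_num
  rw [e] at h
  have := h.unique (hasDerivAt_const t (1 : ℝ))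
  rw [real_inner_comm (T t) (T' t)] at this
  linarith

lemma angle_le_length {T T' : ℝ → E} (hT : ∀ t, HasDerivAt T (T' t) t) (hc : Continuous T')
    (h1 : ∀ t, ‖T t‖ = 1) {a b : ℝ} (hab : a ≤ b) :
    arccos (inner ℝ (T a) (T b)) ≤ ∫ t in a..b, ‖T' t‖ := by
  have hTc : Continuous T := continuous_iff_continuousAt.2 fun t => (hT t).continuousAt
  set A := T a with hA
  have hx : ∀ t, |inner ℝ A (T t)| ≤ 1 := fun t => by
    have := abs_real_inner_le_norm A (T t)
    rwa [h1, h1, mul_one] at this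
  have key : ∀ r ∈ Ioo (0 : ℝ) 1, arccos (r * inner ℝ A (T b)) - arccos (r * inner ℝ A (T a)) ≤
      ∫ t in a..b, ‖T' t‖ := by
    intro r hr
    have hlt : ∀ t, (r * inner ℝ A (T t)) ^ 2 < 1 := fun t => by
      have h2 : inner ℝ A (T t) ^ 2 ≤ 1 := by
        rw [← sq_abs]; nlinarith [hx t, abs_nonneg (inner ℝ A (T t))]
      have h3 : r ^ 2 < 1 := by nlinarith [hr.1, hr.2]
      rw [mul_pow]
      nlinarith [sq_nonneg r, sq_nonneg (inner ℝ A (T t))]
    refine intervalIntegral.sub_le_integral_of_hasDeriv_right_of_le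
      (g := fun t => arccos (r * inner ℝ A (T t)))
      (g' := fun t => -(1 / √(1 - (r * inner ℝ A (T t)) ^ 2)) * (r * inner ℝ A (T' t))) hab
      (Continuous.continuousOn (by fun_prop)) ?_ (hc.norm.continuousOn.integrableOn_Icc) ?_
    · intro t _
      have d1 : HasDerivAt (fun t => r * inner ℝ A (T t)) (r * inner ℝ A (T' t)) t := by
        have := ((hasDerivAt_const t A).inner ℝ (hT t)).const_mul r
        simpa using this
      have n1 : r * inner ℝ A (T t) ≠ -1 := fun h => by have := hlt t; rw [h] at this; norm_num at this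
      have n2 : r * inner ℝ A (T t) ≠ 1 := fun h => by have := hlt t; rw [h] at this; norm_num at this
      exact ((hasDerivAt_arccos n1 n2).comp t d1).hasDerivWithinAt
    · intro t _
      set x := inner ℝ A (T t) with hxdef
      have hpos : 0 < √(1 - (r * x) ^ 2) := Real.sqrt_pos.2 (by linarith [hlt t])
      have e1 : inner ℝ A (T' t) = inner ℝ (A - x • T t) (T' t) := by
        rw [inner_sub_left, real_inner_smul_left, inner_deriv_zero hT h1]; ring
      have e2 : ‖A - x • T t‖ ^ 2 = 1 - x ^ 2 := by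
        rw [norm_sub_sq_real, real_inner_smul_right, norm_smul, h1, h1, ← hxdef, Real.norm_eq_abs,
          mul_one, sq_abs]
        ring
      have e3 : r * ‖A - x • T t‖ ≤ √(1 - (r * x) ^ 2) := by
        apply Real.le_sqrt_of_sq_le
        rw [mul_pow, e2, mul_pow]
        nlinarith [hr.1, hr.2]
      have e4 : -(inner ℝ A (T' t)) ≤ ‖A - x • T t‖ * ‖T' t‖ := by
        rw [e1]
        exact (neg_le_abs _).trans (abs_real_inner_le_norm _ _)
      have e5 : -(r * inner ℝ A (T' t)) ≤ √(1 - (r * x) ^ 2) * ‖T' t‖ := by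
        have := mul_le_mul_of_nonneg_left e4 hr.1.le
        have := mul_le_mul_of_nonneg_right e3 (norm_nonneg (T' t))
        nlinarith
      have : -(1 / √(1 - (r * x) ^ 2)) * (r * inner ℝ A (T' t)) =
          -(r * inner ℝ A (T' t)) / √(1 - (r * x) ^ 2) := by ring
      rw [this, div_le_iff₀ hpos]
      linarith
  have hlim : Tendsto (fun r : ℝ => arccos (r * inner ℝ A (T b)) - arccos (r * inner ℝ A (T a)))
      (𝓝[<] 1) (𝓝 (arccos (1 * inner ℝ A (T b)) - arccos (1 * inner ℝ A (T a)))) := by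
    apply Tendsto.mono_left _ nhdsWithin_le_nhds
    apply Continuous.tendsto
    fun_prop
  have := le_of_tendsto hlim (by
    filter_upwards [Ioo_mem_nhdsLT (show (0 : ℝ) < 1 by norm_num)] with r hr using key r hr)
  rw [← hA, real_inner_self_eq_norm_sq, hA, h1] at this
  simpa using this

lemma add_pos_of_arccos {x y : ℝ} (hx : |x| ≤ 1) (hy : |y| ≤ 1)
    (h : arccos x + arccos y < π) : 0 < x + y := by
  have h1 : cos (π - arccos y) < cos (arccos x) :=
    cos_lt_cos_of_nonneg_of_le_pi (arccos_nonneg x) (by linarith [arccos_nonneg y]) (by linarith)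
  rw [cos_pi_sub, cos_arccos (abs_le.1 hx).1 (abs_le.1 hx).2,
    cos_arccos (abs_le.1 hy).1 (abs_le.1 hy).2] at h1
  linarith

/-- Fenchel's theorem. -/
theorem fenchel {γ T T' : ℝ → E} {ρ : ℝ → ℝ} {L : ℝ} (hL : 0 < L)
    (hγ : ∀ t, HasDerivAt γ (ρ t • T t) t)
    (hρ : ∀ t, 0 < ρ t) (hT : ∀ t, HasDerivAt T (T' t) t) (hc : Continuous T')
    (h1 : ∀ t, ‖T t‖ = 1) (hγp : γ L = γ 0) (hTp : T L = T 0) :
    2 * π ≤ ∫ t in (0 : ℝ)..L, ‖T' t‖ := by
  by_contra hlt
  push Not at hlt
  have hint : ∀ a b : ℝ, IntervalIntegrable (fun t => ‖T' t‖) MeasureTheory.volume a b :=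
    fun a b => hc.norm.intervalIntegrable a b
  let s : ℝ → ℝ := fun t => ∫ u in (0 : ℝ)..t, ‖T' u‖
  have hs : Continuous s := intervalIntegral.continuous_primitive hint 0
  have hs0 : s 0 = 0 := by simp [s]
  have hsL : 0 ≤ s L := intervalIntegral.integral_nonneg hL.le fun _ _ => norm_nonneg _
  obtain ⟨m, hm, hsm⟩ : ∃ m ∈ Icc 0 L, s m = s L / 2 :=
    intermediate_value_Icc hL.le hs.continuousOn ⟨by rw [hs0]; linarith, by linarith⟩
  have hadd : ∀ a b c : ℝ, (∫ u in a..b, ‖T' u‖) + ∫ u in b..c, ‖T' u‖ = ∫ u in a..c, ‖T' u‖ :=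
    fun a b c => intervalIntegral.integral_add_adjacent_intervals (hint a b) (hint b c)
  have hx : ∀ a b, |inner ℝ (T a) (T b)| ≤ 1 := fun a b => by
    have := abs_real_inner_le_norm (T a) (T b)
    rwa [h1, h1, mul_one] at this
  have hpos : ∀ t ∈ Icc 0 L, 0 < inner ℝ (T 0 + T m) (T t) := by
    intro t ht
    rw [inner_add_left]
    rcases le_total t m with h | h
    · have a1 := angle_le_length hT hc h1 ht.1
      have a2 := angle_le_length hT hc h1 h
      have a3 := hadd 0 t m
      rw [real_inner_comm (T t) (T m)]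
      apply add_pos_of_arccos (hx _ _) (hx _ _)
      change s m = _ at hsm
      simp only [s] at hsm
      linarith
    · have a1 := angle_le_length hT hc h1 ht.2
      have a2 := angle_le_length hT hc h1 h
      have a3 := hadd m t L
      have a4 := hadd 0 m L
      rw [← hTp, real_inner_comm (T t) (T L)]
      apply add_pos_of_arccos (hx _ _) (hx _ _)
      simp only [s] at hsm
      linarith
  have hd : ∀ t, HasDerivAt (fun t => inner ℝ (T 0 + T m) (γ t))
      (ρ t * inner ℝ (T 0 + T m) (T t)) t := fun t => by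
    have := (hasDerivAt_const t (T 0 + T m)).inner ℝ (hγ t)
    simpa [real_inner_smul_right] using this
  have hmono := strictMonoOn_of_deriv_pos (convex_Icc 0 L)
    (f := fun t => inner ℝ (T 0 + T m) (γ t))
    (fun t _ => (hd t).continuousAt.continuousWithinAt) (by
      intro t ht
      rw [(hd t).deriv]
      exact mul_pos (hρ t) (hpos t (interior_subset ht)))
  have := hmono (left_mem_Icc.2 hL.le) (right_mem_Icc.2 hL.le) hL
  simp only [hγp] at this
  exact lt_irrefl _ this

end Pool.Agent.H626Z.Frenet
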