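import Pool.Agent.H626Z.Frenet.Defs2
import Pool.Agent.H626Z.Frenet.Fenchel

set_option autoImplicit false
set_option maxHeartbeats 400000

namespace Pool.Agent.H626Z.Frenet

open Set Filter Topology Real InnerProductSpace
open scoped ContDiff

lemma gs_eq {E ι : Type*} [NormedAddCommGroup E] [InnerProductSpace ℝ E] [LinearOrder ι]
    [LocallyFiniteOrderBot ι] [WellFoundedLT ι] (f : ι → E) (n : ι) :
    gramSchmidt ℝ f n = f n - ∑ i ∈ Finset.Iio n,
      (inner ℝ (gramSchmidt ℝ f i) (f n) / inner ℝ (gramSchmidt ℝ f i) (gramSchmidt ℝ f i)) •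
        gramSchmidt ℝ f i := by
  have := gramSchmidt_def'' ℝ f n
  simp only [real_inner_self_eq_norm_sq]
  rw [eq_sub_iff_add_eq]
  exact this.symm

lemma contDiff_gs {E ι : Type*} [NormedAddCommGroup E] [InnerProductSpace ℝ E] [LinearOrder ι]
    [LocallyFiniteOrderBot ι] [WellFoundedLT ι] (f : ℝ → ι → E)
    (hf : ∀ i, ContDiff ℝ ∞ fun t => f t i) (hli : ∀ t, LinearIndependent ℝ (f t)) (n : ι) :
    ContDiff ℝ ∞ fun t => gramSchmidt ℝ (f t) n := by
  induction n using WellFoundedLT.induction with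
  | ind n ih =>
    have e : (fun t => gramSchmidt ℝ (f t) n) = fun t => f t n - ∑ i ∈ Finset.Iio n,
      (inner ℝ (gramSchmidt ℝ (f t) i) (f t n) /
        inner ℝ (gramSchmidt ℝ (f t) i) (gramSchmidt ℝ (f t) i)) • gramSchmidt ℝ (f t) i :=
      funext fun t => gs_eq (f t) n
    rw [e]
    refine (hf n).sub (ContDiff.sum fun i hi => ?_)
    have h := ih i (Finset.mem_Iio.1 hi)
    refine ContDiff.smul (ContDiff.div (h.inner ℝ (hf n)) (h.inner ℝ h) fun t => ?_) h
    exact inner_self_ne_zero.2 (gramSchmidt_ne_zero i (hli t))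

variable {m : ℕ} {γ : ℝ → EuclideanSpace ℝ (Fin (m + 3))}

theorem two_pi_lt_frameLength (hγ : IsClosedCurve γ) (hn : Nondegenerate γ) :
    2 * π < frameLength γ := by
  obtain ⟨hsm, hper⟩ := hγ
  have l01 : (0 : Fin (m + 3)) < 1 := by rw [Fin.lt_def]; exact Nat.zero_lt_one
  have l02 : (0 : Fin (m + 3)) < 2 := by rw [Fin.lt_def]; exact Nat.zero_lt_two
  have l12 : (1 : Fin (m + 3)) < 2 := by rw [Fin.lt_def]; exact Nat.one_lt_two
  have hpi : (0 : ℝ) < 2 * π := Real.two_pi_pos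
  have hD : ∀ k, ContDiff ℝ ∞ (iteratedDeriv k γ) := fun k => by
    rw [iteratedDeriv_eq_iterate]; exact hsm.iterate_deriv k
  have hDd : ∀ k t, HasDerivAt (iteratedDeriv k γ) (iteratedDeriv (k + 1) γ t) t := fun k t => by
    rw [iteratedDeriv_succ]
    exact ((hD k).differentiable (by simp) t).hasDerivAt
  have hjet : ∀ i, ContDiff ℝ ∞ fun t => jet γ t i := fun i => hD (i + 1)
  let g : Fin (m + 3) → ℝ → EuclideanSpace ℝ (Fin (m + 3)) := fun i t => gramSchmidt ℝ (jet γ t) i
  have hg : ∀ i, ContDiff ℝ ∞ (g i) := fun i => contDiff_gs (jet γ) hjet hn i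
  have hg0 : ∀ i t, g i t ≠ 0 := fun i t => gramSchmidt_ne_zero i (hn t)
  let ρ : Fin (m + 3) → ℝ → ℝ := fun i t => ‖g i t‖⁻¹
  have hρ : ∀ i, ContDiff ℝ ∞ (ρ i) := fun i =>
    ((hg i).norm ℝ (hg0 i)).inv fun t => norm_ne_zero_iff.2 (hg0 i t)
  have hρpos : ∀ i t, 0 < ρ i t := fun i t => inv_pos.2 (norm_pos_iff.2 (hg0 i t))
  have hfr : ∀ i, frame γ i = fun t => ρ i t • g i t := fun i => rfl
  have hfs : ∀ i, ContDiff ℝ ∞ (frame γ i) := fun i => by rw [hfr]; exact (hρ i).smul (hg i)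
  have hfd : ∀ i t, HasDerivAt (frame γ i) (deriv (frame γ i) t) t := fun i t =>
    ((hfs i).differentiable (by simp) t).hasDerivAt
  have hfc : ∀ i, Continuous (deriv (frame γ i)) := fun i => (hfs i).continuous_deriv (by simp)
  have hf1 : ∀ i t, ‖frame γ i t‖ = 1 := fun i t => gramSchmidtNormed_unit_length i (hn t)
  have hρd : ∀ i t, HasDerivAt (ρ i) (deriv (ρ i) t) t := fun i t =>
    ((hρ i).differentiable (by simp) t).hasDerivAt
  -- the first three Gram-Schmidt vectors
  have j0 : ∀ t, jet γ t 0 = iteratedDeriv 1 γ t := fun t => rfl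
  have j1 : ∀ t, jet γ t 1 = iteratedDeriv 2 γ t := fun t => rfl
  have j2 : ∀ t, jet γ t 2 = iteratedDeriv 3 γ t := fun t => rfl
  have g0 : g 0 = iteratedDeriv 1 γ := by
    funext t
    exact gramSchmidt_bot ℝ (jet γ t)
  let c : ℝ → ℝ := fun t => inner ℝ (g 0 t) (jet γ t 1) / inner ℝ (g 0 t) (g 0 t)
  have hcs : ContDiff ℝ ∞ c := ContDiff.div ((hg 0).inner ℝ (hjet 1)) ((hg 0).inner ℝ (hg 0))
    fun t => inner_self_ne_zero.2 (hg0 0 t)
  have hcd : ∀ t, HasDerivAt c (deriv c t) t := fun t =>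
    (hcs.differentiable (by simp) t).hasDerivAt
  have hI1 : Finset.Iio (1 : Fin (m + 3)) = {0} := by
    ext i
    simp only [Finset.mem_Iio, Finset.mem_singleton, Fin.lt_def, Fin.ext_iff, Fin.val_one,
      Fin.val_zero]
    omega
  have g1 : g 1 = fun t => iteratedDeriv 2 γ t - c t • iteratedDeriv 1 γ t := by
    funext t
    have := gs_eq (jet γ t) (1 : Fin (m + 3))
    rw [hI1, Finset.sum_singleton] at this
    rw [← g0]
    exact this
  have hd1 : deriv γ = iteratedDeriv 1 γ := iteratedDeriv_one.symm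
  have hv : ∀ t, 0 < ‖deriv γ t‖ := fun t => by
    rw [hd1, ← g0]; exact norm_pos_iff.2 (hg0 0 t)
  -- first curvature
  have k1 : ∀ t, ‖deriv (frame γ 0) t‖ ^ 2 =
      (inner ℝ (deriv (frame γ 0) t) (frame γ 1 t)) ^ 2 := by
    intro t
    have d : HasDerivAt (frame γ 0)
        (ρ 0 t • iteratedDeriv 2 γ t + deriv (ρ 0) t • iteratedDeriv 1 γ t) t := by
      rw [hfr, g0]
      exact (hρd 0 t).smul (hDd 1 t)
    have e2 : iteratedDeriv 2 γ t = g 1 t + c t • g 0 t := by rw [g1, g0]; simp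
    have e : deriv (frame γ 0) t = ρ 0 t • g 1 t + (ρ 0 t * c t + deriv (ρ 0) t) • g 0 t := by
      rw [d.deriv, e2, ← g0]; module
    have orth : inner ℝ (g 0 t) (g 1 t) = 0 := gramSchmidt_orthogonal ℝ _ l01.ne
    have z := inner_deriv_zero (hfd 0) (hf1 0) t
    rw [e, hfr] at z
    simp only [inner_add_right, real_inner_smul_left, real_inner_smul_right, orth, mul_zero,
      zero_add, mul_eq_zero, (hρpos 0 t).ne', false_or, inner_self_eq_zero, hg0 0 t,
      or_false] at z
    rw [e, z, zero_smul, add_zero, hfr]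
    simp only [real_inner_smul_left, real_inner_smul_right, real_inner_self_eq_norm_sq, norm_smul,
      Real.norm_eq_abs, mul_pow, sq_abs, ρ]
    have := norm_ne_zero_iff.2 (hg0 1 t)
    field_simp
  -- second curvature
  have k2 : ∀ t, inner ℝ (deriv (frame γ 1) t) (frame γ 2 t) ≠ 0 := by
    intro t
    have d : HasDerivAt (frame γ 1)
        (ρ 1 t • (iteratedDeriv 3 γ t - (c t • iteratedDeriv 2 γ t +
          deriv c t • iteratedDeriv 1 γ t)) + deriv (ρ 1) t • g 1 t) t := by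
      rw [hfr]
      refine (hρd 1 t).smul ?_
      rw [g1]
      exact (hDd 2 t).sub ((hcd t).smul (hDd 1 t))
    have o0 : inner ℝ (iteratedDeriv 1 γ t) (g 2 t) = 0 := by
      rw [real_inner_comm, ← j0]
      exact gramSchmidt_inv_triangular ℝ _ l02
    have o1 : inner ℝ (iteratedDeriv 2 γ t) (g 2 t) = 0 := by
      rw [real_inner_comm, ← j1]
      exact gramSchmidt_inv_triangular ℝ _ l12
    have o2 : inner ℝ (g 1 t) (g 2 t) = 0 := gramSchmidt_orthogonal ℝ _ l12.ne
    have o3 : inner ℝ (iteratedDeriv 3 γ t) (g 2 t) = inner ℝ (g 2 t) (g 2 t) := by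
      have := gs_eq (jet γ t) (2 : Fin (m + 3))
      have h2 : iteratedDeriv 3 γ t = g 2 t + ∑ i ∈ Finset.Iio (2 : Fin (m + 3)),
          (inner ℝ (g i t) (jet γ t 2) / inner ℝ (g i t) (g i t)) • g i t := by
        rw [← j2]; exact (eq_sub_iff_add_eq.1 this).symm
      rw [h2, inner_add_left, sum_inner, Finset.sum_eq_zero, add_zero]
      intro i hi
      rw [real_inner_smul_left, show inner ℝ (g i t) (g 2 t) = 0 from
        gramSchmidt_orthogonal ℝ _ (Finset.mem_Iio.1 hi).ne, mul_zero]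
    rw [d.deriv, hfr]
    simp only [inner_add_left, inner_sub_left, real_inner_smul_left, real_inner_smul_right, o0, o1,
      o2, o3, mul_zero, add_zero, sub_zero]
    exact mul_ne_zero (hρpos 2 t).ne' (mul_ne_zero (hρpos 1 t).ne'
      (inner_self_ne_zero.2 (hg0 2 t)))
  have hfen : 2 * π ≤ ∫ t in (0 : ℝ)..(2 * π), ‖deriv (frame γ 0) t‖ := by
    refine fenchel (γ := γ) (ρ := fun t => ‖deriv γ t‖) hpi ?_ hv (hfd 0) (hfc 0)
      (hf1 0) (by simpa using hper 0) ?_
    · intro t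
      have := hDd 0 t
      rw [iteratedDeriv_zero] at this
      refine this.congr_deriv ?_
      rw [hfr, hd1]
      simp only [ρ, g0, smul_smul]
      rw [mul_inv_cancel₀ (by rw [← hd1]; exact (hv t).ne'), one_smul]
    · have : iteratedDeriv 1 γ (2 * π) = iteratedDeriv 1 γ 0 := by
        rw [← hd1]
        have e : γ = fun t => γ (t + 2 * π) := funext fun t => (hper t).symm
        conv_rhs => rw [e]
        rw [deriv_comp_add_const]
        simp
      rw [hfr]
      simp only [ρ, g0, this]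
  refine hfen.trans_lt ?_
  unfold frameLength
  have hdc : Continuous (deriv γ) := hsm.continuous_deriv (by simp)
  have hcc : ∀ i, Continuous (curvature γ i) := fun i =>
    ((hfc _).inner (hfs _).continuous).div hdc.norm fun t => (hv t).ne'
  have hlt : ∀ t, ‖deriv (frame γ 0) t‖ < √(∑ i, curvature γ i t ^ 2) * ‖deriv γ t‖ := by
    intro t
    rw [← div_lt_iff₀ (hv t)]
    apply Real.lt_sqrt_of_sq_lt
    have e : ∑ i, curvature γ i t ^ 2 = curvature γ (0 : Fin (m + 2)) t ^ 2 +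
        (curvature γ (1 : Fin (m + 2)) t ^ 2 +
          ∑ i : Fin m, curvature γ (i.succ.succ : Fin (m + 2)) t ^ 2) := by
      exact (Fin.sum_univ_succ (n := m + 1) (fun i => curvature γ i t ^ 2)).trans
        (congrArg _ (Fin.sum_univ_succ (n := m)
          (fun i => curvature γ (i.succ : Fin (m + 2)) t ^ 2)))
    have c0 : curvature γ (0 : Fin (m + 2)) t =
      inner ℝ (deriv (frame γ 0) t) (frame γ 1 t) / ‖deriv γ t‖ := rfl
    have c1 : curvature γ (1 : Fin (m + 2)) t =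
      inner ℝ (deriv (frame γ 1) t) (frame γ 2 t) / ‖deriv γ t‖ := rfl
    have p1 : 0 < curvature γ (1 : Fin (m + 2)) t ^ 2 := by
      rw [c1]
      exact pow_pos (abs_pos.2 (div_ne_zero (k2 t) (hv t).ne')) 2 |>.trans_eq (sq_abs _)
    have p2 : 0 ≤ ∑ i : Fin m, curvature γ (i.succ.succ : Fin (m + 2)) t ^ 2 :=
      Finset.sum_nonneg fun i _ => sq_nonneg _
    rw [e, c0, div_pow, div_pow, k1]
    exact lt_add_of_pos_right _ (add_pos_of_pos_of_nonneg p1 p2)
  refine intervalIntegral.integral_lt_integral_of_continuousOn_of_le_of_exists_lt hpi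
    (hfc 0).norm.continuousOn (Continuous.continuousOn ?_) (fun t _ => (hlt t).le)
    ⟨0, left_mem_Icc.2 hpi.le, hlt 0⟩
  exact (continuous_finsetSum _ fun i _ => (hcc i).pow 2).sqrt.mul hdc.norm

end Pool.Agent.H626Z.Frenet
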