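import Pool.Agent.H626Z.Frenet.Defs

set_option autoImplicit false

namespace Pool.Agent.H626Z.Frenet

open scoped ContDiff
open Complex

section
variable {ι : Type} [Fintype ι] {n : ℕ}

/-- `j`-th derivative of a real trigonometric polynomial -/
noncomputable def sc (w : ι → ℕ) (c : ι → ℂ) (j : ℕ) (t : ℝ) : ℝ :=
  (∑ a, (I * w a) ^ j * c a * exp (I * w a * t)).re

lemma hasDerivAt_sc (w : ι → ℕ) (c : ι → ℂ) (j : ℕ) (t : ℝ) :
    HasDerivAt (sc w c j) (sc w c (j + 1) t) t := by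
  have h : HasDerivAt (fun s : ℝ => ∑ a, (I * w a) ^ j * c a * exp (I * w a * s))
      (∑ a, (I * w a) ^ (j + 1) * c a * exp (I * w a * t)) t := by
    refine HasDerivAt.fun_sum fun a _ => ?_
    have h1 : HasDerivAt (fun s : ℝ => I * w a * (s : ℂ)) (I * w a) t := by
      simpa using (Complex.ofRealCLM.hasDerivAt (x := t)).const_mul (I * w a)
    have h2 := (h1.cexp).const_mul ((I * w a) ^ j * c a)
    refine h2.congr_deriv ?_
    ring
  exact Complex.reCLM.hasFDerivAt.comp_hasDerivAt t h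

lemma contDiff_sc (w : ι → ℕ) (c : ι → ℂ) (j : ℕ) : ContDiff ℝ ∞ (sc w c j) := by
  have h : ContDiff ℝ ∞ (fun s : ℝ => ∑ a, (I * w a) ^ j * c a * exp (I * w a * s)) := by
    refine ContDiff.sum fun a _ => contDiff_const.mul ?_
    have h1 : ContDiff ℝ ∞ (fun s : ℝ => I * w a * (s : ℂ)) :=
      contDiff_const.mul Complex.ofRealCLM.contDiff
    exact h1.cexp
  exact Complex.reCLM.contDiff.comp h

lemma periodic_sc (w : ι → ℕ) (c : ι → ℂ) (j : ℕ) :
    Function.Periodic (sc w c j) (2 * Real.pi) := by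
  intro t
  unfold sc
  congr 1
  refine Finset.sum_congr rfl fun a _ => ?_
  congr 1
  have : I * w a * ((t + 2 * Real.pi : ℝ) : ℂ) = I * w a * t + (w a : ℕ) * (2 * Real.pi * I) := by
    push_cast; ring
  rw [this, exp_add, exp_nat_mul_two_pi_mul_I, mul_one]

lemma abs_sc_le (w : ι → ℕ) (c : ι → ℂ) (j : ℕ) (t : ℝ) :
    |sc w c j t| ≤ ∑ a, (w a : ℝ) ^ j * ‖c a‖ := by
  refine (abs_re_le_norm _).trans ((norm_sum_le _ _).trans (Finset.sum_le_sum fun a _ => ?_))
  have : ‖exp (I * w a * t)‖ = 1 := by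
    have : I * w a * t = ((w a * t : ℝ) : ℂ) * I := by push_cast; ring
    rw [this, norm_exp_ofReal_mul_I]
  rw [norm_mul, norm_mul, this, norm_pow, norm_mul, norm_I]
  simp

/-- vector version -/
noncomputable def Dv (w : ι → ℕ) (c : Fin n → ι → ℂ) (j : ℕ) (t : ℝ) : EuclideanSpace ℝ (Fin n) :=
  WithLp.toLp 2 fun i => sc w (c i) j t

lemma hasDerivAt_Dv (w : ι → ℕ) (c : Fin n → ι → ℂ) (j : ℕ) (t : ℝ) :
    HasDerivAt (Dv w c j) (Dv w c (j + 1) t) t := by
  have h : HasDerivAt (fun s => fun i => sc w (c i) j s) (fun i => sc w (c i) (j + 1) t) t :=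
    hasDerivAt_pi.2 fun i => hasDerivAt_sc w (c i) j t
  exact (PiLp.continuousLinearEquiv 2 ℝ (fun _ : Fin n => ℝ)).symm.hasFDerivAt.comp_hasDerivAt t h

lemma iteratedDeriv_Dv (w : ι → ℕ) (c : Fin n → ι → ℂ) (j : ℕ) :
    iteratedDeriv j (Dv w c 0) = Dv w c j := by
  induction j with
  | zero => simp
  | succ j ih =>
    rw [iteratedDeriv_succ, ih]
    funext t
    exact (hasDerivAt_Dv w c j t).deriv

lemma closed_Dv (w : ι → ℕ) (c : Fin n → ι → ℂ) : IsClosedCurve (Dv w c 0) := by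
  refine ⟨contDiff_euclidean.2 fun i => contDiff_sc w (c i) 0, fun t => ?_⟩
  unfold Dv
  congr 1
  funext i
  exact periodic_sc w (c i) 0 t

/-- dual form of nondegeneracy -/
def Good (w : ι → ℕ) (c : Fin n → ι → ℂ) : Prop :=
  ∀ (t : ℝ) (ξ : Fin n → ℝ), (∀ j, 1 ≤ j → j ≤ n → ∑ i, ξ i * sc w (c i) j t = 0) → ξ = 0

lemma nondeg_of_good {w : ι → ℕ} {c : Fin n → ι → ℂ} (h : Good w c) :
    Nondegenerate (Dv w c 0) := by
  intro t
  let M : Matrix (Fin n) (Fin n) ℝ := fun j i => sc w (c i) (j + 1) t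
  have hdet : M.det ≠ 0 := by
    intro h0
    obtain ⟨v, hv, hM⟩ := Matrix.exists_mulVec_eq_zero_iff.2 h0
    apply hv
    apply h t v
    intro j h1 h2
    have := congrFun hM ⟨j - 1, by omega⟩
    simp only [Matrix.mulVec, dotProduct, M, Pi.zero_apply] at this
    rw [show j - 1 + 1 = j by omega] at this
    rw [← this]
    exact Finset.sum_congr rfl fun i _ => mul_comm _ _
  have hli : LinearIndependent ℝ M.row :=
    Matrix.linearIndependent_rows_iff_isUnit.2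
      ((Matrix.isUnit_iff_isUnit_det M).2 (isUnit_iff_ne_zero.2 hdet))
  have := hli.map' (WithLp.linearEquiv 2 ℝ (Fin n → ℝ)).symm.toLinearMap (by simp)
  have e : jet (Dv w c 0) t =
      ⇑(WithLp.linearEquiv 2 ℝ (Fin n → ℝ)).symm.toLinearMap ∘ M.row := by
    funext j
    simp only [jet, iteratedDeriv_Dv]
    rfl
  rw [e]
  exact this

/-- frequencies after one step -/
def wS (w : ι → ℕ) : Option ι → ℕ
  | none => 1
  | some a => 2 * w a

/-- coefficients after one step -/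
noncomputable def cS (w : ι → ℕ) (c : Fin n → ι → ℂ) (ε : ℝ) : Fin (n + 2) → Option ι → ℂ :=
  Fin.cons (fun o => o.elim 1 fun _ => 0) (Fin.cons (fun o => o.elim (-I) fun _ => 0)
    fun i o => o.elim 0 fun a => ε * (c i a / (1 - 4 * (w a : ℂ) ^ 2)))

lemma sc_step_zero (w : ι → ℕ) (c : Fin n → ι → ℂ) (ε : ℝ) (j : ℕ) (t : ℝ) :
    sc (wS w) (cS w c ε 0) j t = (I ^ j * exp (I * t)).re := by
  simp [sc, cS, wS, Fintype.sum_option]

lemma sc_step_one (w : ι → ℕ) (c : Fin n → ι → ℂ) (ε : ℝ) (j : ℕ) (t : ℝ) :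
    sc (wS w) (cS w c ε 1) j t = (I ^ j * (-I) * exp (I * t)).re := by
  have : cS w c ε 1 = fun o => o.elim (-I) fun _ => 0 := rfl
  rw [this]
  simp only [sc, wS, Fintype.sum_option, Option.elim_none, Option.elim_some]
  simp

lemma sc_step_succ (w : ι → ℕ) (c : Fin n → ι → ℂ) (ε : ℝ) (j : ℕ) (t : ℝ) (i : Fin n) :
    sc (wS w) (cS w c ε i.succ.succ) j t =
      ε * sc (fun a => 2 * w a) (fun a => c i a / (1 - 4 * (w a : ℂ) ^ 2)) j t := by
  have : cS w c ε i.succ.succ =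
      fun o => o.elim 0 fun a => ε * (c i a / (1 - 4 * (w a : ℂ) ^ 2)) := rfl
  rw [this]
  simp only [sc, wS, Fintype.sum_option, Option.elim_none, Option.elim_some, mul_zero, zero_mul,
    zero_add]
  rw [← re_ofReal_mul, Finset.mul_sum]
  congr 1
  exact Finset.sum_congr rfl fun a _ => by ring

lemma sc_op (w : ι → ℕ) (c : ι → ℂ) (j : ℕ) (t : ℝ) :
    sc (fun a => 2 * w a) (fun a => c a / (1 - 4 * (w a : ℂ) ^ 2)) (j + 2) t +
      sc (fun a => 2 * w a) (fun a => c a / (1 - 4 * (w a : ℂ) ^ 2)) j t =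
      2 ^ j * sc w c j (2 * t) := by
  unfold sc
  rw [← add_re, ← re_ofReal_mul, ← Finset.sum_add_distrib, Finset.mul_sum]
  congr 1
  refine Finset.sum_congr rfl fun a _ => ?_
  have hne : (1 - 4 * (w a : ℂ) ^ 2) ≠ 0 := by
    intro h
    have h1 : ((1 - 4 * (w a : ℤ) ^ 2 : ℤ) : ℂ) = 0 := by push_cast; exact h
    have h2 : (1 - 4 * (w a : ℤ) ^ 2 : ℤ) = 0 := by exact_mod_cast h1
    omega
  have e2 : I * ((2 * w a : ℕ) : ℂ) * t = I * w a * ((2 * t : ℝ) : ℂ) := by push_cast; ring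
  rw [e2]
  push_cast
  have e3 : (I * (2 * (w a : ℂ))) ^ (j + 2) = (I * (2 * (w a : ℂ))) ^ j * (-(4 * (w a : ℂ) ^ 2)) := by
    rw [pow_add]
    congr 1
    linear_combination (4 * (w a : ℂ) ^ 2) * I_sq
  have e4 : (I * (2 * (w a : ℂ))) ^ j = 2 ^ j * (I * w a) ^ j := by
    rw [← mul_pow]; congr 1; ring
  rw [e3, e4]
  have e5 : c a = (c a / (1 - 4 * (w a : ℂ) ^ 2)) * (1 - 4 * (w a : ℂ) ^ 2) :=
    (div_mul_cancel₀ _ hne).symm
  set q := c a / (1 - 4 * (w a : ℂ) ^ 2)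
  rw [e5]
  ring

lemma good_step {w : ι → ℕ} {c : Fin n → ι → ℂ} (h : Good w c) {ε : ℝ} (hε : ε ≠ 0) :
    Good (wS w) (cS w c ε) := by
  intro t ξ H
  simp only [Fin.sum_univ_succ, Fin.succ_zero_eq_one, sc_step_zero, sc_step_one,
    sc_step_succ] at H
  have h1 : (fun i : Fin n => ξ i.succ.succ) = 0 := by
    apply h (2 * t)
    intro j h1 h2
    have a1 := H j h1 (by omega)
    have a2 := H (j + 2) (by omega) (by omega)
    have b1 : (I ^ (j + 2) * exp (I * t)).re = -(I ^ j * exp (I * t)).re := by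
      rw [pow_add, I_sq, ← neg_re]; congr 1; ring
    have b2 : (I ^ (j + 2) * (-I) * exp (I * t)).re = -(I ^ j * (-I) * exp (I * t)).re := by
      rw [pow_add, I_sq, ← neg_re]; congr 1; ring
    rw [b1, b2] at a2
    have b3 : ∑ i : Fin n, ξ i.succ.succ * (ε * (2 ^ j * sc w (c i) j (2 * t))) = 0 := by
      simp_rw [← sc_op, mul_add, Finset.sum_add_distrib]
      linarith
    have b4 : (ε * 2 ^ j) * ∑ i : Fin n, ξ i.succ.succ * sc w (c i) j (2 * t) = 0 := by
      rw [← b3, Finset.mul_sum]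
      exact Finset.sum_congr rfl fun i _ => by ring
    exact (mul_eq_zero.1 b4).resolve_left (mul_ne_zero hε (by positivity))
  have h2 : ∀ i : Fin n, ξ i.succ.succ = 0 := fun i => congrFun h1 i
  have a1 := H 1 le_rfl (by omega)
  have a2 := H 2 (by omega) (by omega)
  simp only [h2, zero_mul, Finset.sum_const_zero, add_zero] at a1 a2
  have e : exp (I * t) = exp (t * I) := by rw [mul_comm]
  rw [e] at a1 a2
  simp [pow_two, exp_ofReal_mul_I_re, exp_ofReal_mul_I_im] at a1 a2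
  have hs := Real.sin_sq_add_cos_sq t
  have x0 : ξ 0 = 0 := by
    linear_combination (-Real.sin t) * a1 + (-Real.cos t) * a2 - ξ 0 * hs
  have x1 : ξ 1 = 0 := by
    linear_combination (Real.cos t) * a1 + (-Real.sin t) * a2 - ξ 1 * hs
  funext i
  refine Fin.cases x0 (fun i => Fin.cases x1 (fun i => h2 i) i) i

end

lemma three_eq {x1 y1 z1 x2 y2 z2 x3 y3 z3 a b c : ℝ}
    (hd : z1 * (x2 * y3 - y2 * x3) - z2 * (x1 * y3 - y1 * x3) + z3 * (x1 * y2 - y1 * x2) ≠ 0)
    (h1 : a * x1 + b * y1 + c * z1 = 0) (h2 : a * x2 + b * y2 + c * z2 = 0)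
    (h3 : a * x3 + b * y3 + c * z3 = 0) : a = 0 ∧ b = 0 ∧ c = 0 := by
  refine ⟨?_, ?_, ?_⟩
  · apply (mul_eq_zero.1 (_ : _ * a = 0)).resolve_left hd
    linear_combination (y2 * z3 - z2 * y3) * h1 - (y1 * z3 - z1 * y3) * h2 + (y1 * z2 - z1 * y2) * h3
  · apply (mul_eq_zero.1 (_ : _ * b = 0)).resolve_left hd
    linear_combination -(x2 * z3 - z2 * x3) * h1 + (x1 * z3 - z1 * x3) * h2 - (x1 * z2 - z1 * x2) * h3
  · apply (mul_eq_zero.1 (_ : _ * c = 0)).resolve_left hd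
    linear_combination (x2 * y3 - y2 * x3) * h1 - (x1 * y3 - y1 * x3) * h2 + (x1 * y2 - y1 * x2) * h3

lemma good_three : Good (ι := Fin 3) ![1, 2, 3] ![![2, 1, 0], ![2 * I, -I, 0], ![0, 0, -I]] := by
  intro t ξ H
  have a1 := H 1 (by omega) (by omega)
  have a2 := H 2 (by omega) (by omega)
  have a3 := H 3 (by omega) (by omega)
  have e1 : exp (I * t) = exp (t * I) := by rw [mul_comm]
  have e2 : exp (I * 2 * t) = exp (((2 * t : ℝ) : ℂ) * I) := by congr 1; push_cast; ring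
  have e3 : exp (I * 3 * t) = exp (((3 * t : ℝ) : ℂ) * I) := by congr 1; push_cast; ring
  simp only [sc, Fin.sum_univ_three, Matrix.cons_val_zero, Matrix.cons_val_one,
    Matrix.cons_val_two, Matrix.head_cons, Matrix.tail_cons, Nat.cast_one, Nat.cast_ofNat, mul_one,
    e1, e2, e3] at a1 a2 a3
  simp only [pow_succ, pow_zero, add_re, mul_re, mul_im, exp_ofReal_mul_I_re, exp_ofReal_mul_I_im,
    I_re, I_im, one_re, one_im, re_ofNat, im_ofNat, neg_re, neg_im, zero_re, zero_im] at a1 a2 a3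
  have hc : Real.cos (3 * t) = Real.cos t * Real.cos (2 * t) - Real.sin t * Real.sin (2 * t) := by
    rw [← Real.cos_add]; congr 1; ring
  have hs : Real.sin (3 * t) = Real.sin t * Real.cos (2 * t) + Real.cos t * Real.sin (2 * t) := by
    rw [← Real.sin_add]; congr 1; ring
  have p1 := Real.sin_sq_add_cos_sq t
  have p2 := Real.sin_sq_add_cos_sq (2 * t)
  have p3 := Real.sin_sq_add_cos_sq (3 * t)
  set C1 := Real.cos t
  set S1 := Real.sin t
  set C2 := Real.cos (2 * t)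
  set S2 := Real.sin (2 * t)
  set C3 := Real.cos (3 * t)
  set S3 := Real.sin (3 * t)
  have key := three_eq (a := ξ 0) (b := ξ 1) (c := ξ 2)
    (x1 := -2 * S1 - 2 * S2) (y1 := -2 * C1 + 2 * C2) (z1 := 3 * C3)
    (x2 := -2 * C1 - 4 * C2) (y2 := 2 * S1 - 4 * S2) (z2 := -9 * S3)
    (x3 := 2 * S1 + 8 * S2) (y3 := 2 * C1 - 8 * C2) (z3 := -27 * C3) (by
      have d12 : (-2 * S1 - 2 * S2) * (2 * S1 - 4 * S2) - (-2 * C1 + 2 * C2) * (-2 * C1 - 4 * C2)
          = 4 - 4 * C3 := by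
        linear_combination (-4) * p1 + 8 * p2 + 4 * hc
      have d23 : (-2 * C1 - 4 * C2) * (2 * C1 - 8 * C2) - (2 * S1 - 4 * S2) * (2 * S1 + 8 * S2)
          = 28 + 8 * C3 := by
        linear_combination (-4) * p1 + 32 * p2 - 8 * hc
      have d13 : (-2 * S1 - 2 * S2) * (2 * C1 - 8 * C2) - (-2 * C1 + 2 * C2) * (2 * S1 + 8 * S2)
          = 12 * S3 := by
        linear_combination (-12) * hs
      rw [d12, d23, d13]
      nlinarith [sq_nonneg (C3 - 1 / 2)])
    (by linear_combination a1) (by linear_combination a2) (by linear_combination a3)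
  funext i
  fin_cases i
  · exact key.1
  · exact key.2.1
  · exact key.2.2

lemma exists_good (n : ℕ) (hn : n ≠ 1) :
    ∃ (ι : Type) (_ : Fintype ι) (w : ι → ℕ) (c : Fin n → ι → ℂ), Good w c := by
  induction n using Nat.strong_induction_on with
  | _ n ih =>
    match n, hn, ih with
    | 0, _, _ => exact ⟨Empty, inferInstance, fun a => a.elim, fun _ a => a.elim,
        fun _ ξ _ => Subsingleton.elim _ _⟩
    | 1, h, _ => exact absurd rfl h
    | 3, _, _ => exact ⟨Fin 3, inferInstance, _, _, good_three⟩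
    | 2, _, ih =>
      obtain ⟨ι, _, w, c, h⟩ := ih 0 (by omega) (by omega)
      exact ⟨Option ι, inferInstance, _, _, good_step h one_ne_zero⟩
    | m + 4, _, ih =>
      obtain ⟨ι, _, w, c, h⟩ := ih (m + 2) (by omega) (by omega)
      exact ⟨Option ι, inferInstance, _, _, good_step h one_ne_zero⟩

theorem perturbable_one (n : ℕ) (hn : n ≠ 1) : Perturbable (n + 2) 1 := by
  obtain ⟨ι, _, w, c, h⟩ := exists_good n hn
  intro k ε hε
  have hcirc : circ (n + 2) 1 = Dv (wS w) (cS w c 0) 0 := by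
    funext t
    unfold circ Dv
    congr 1
    funext i
    have e : exp (I * t) = exp (t * I) := by rw [mul_comm]
    refine Fin.cases ?_ (fun i => Fin.cases ?_ (fun i => ?_) i) i
    · rw [sc_step_zero, e]; simp [exp_ofReal_mul_I_re]
    · rw [Fin.succ_zero_eq_one, sc_step_one, e]; simp [exp_ofReal_mul_I_im]
    · rw [sc_step_succ]; simp
  let B : ℝ := ∑ j ∈ Finset.range (k + 1), ∑ i : Fin n,
    ∑ a, ((2 * w a : ℕ) : ℝ) ^ j * ‖c i a / (1 - 4 * (w a : ℂ) ^ 2)‖
  have hB : 0 ≤ B := by positivity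
  let δ : ℝ := ε / (B + 1)
  have hδ : 0 < δ := by positivity
  refine ⟨Dv (wS w) (cS w c δ) 0, closed_Dv _ _, nondeg_of_good (good_step h hδ.ne'), ?_⟩
  intro j hj t
  rw [hcirc, iteratedDeriv_Dv, iteratedDeriv_Dv]
  have h1 : ‖Dv (wS w) (cS w c δ) j t - Dv (wS w) (cS w c 0) j t‖ ≤
      ∑ i, |(Dv (wS w) (cS w c δ) j t - Dv (wS w) (cS w c 0) j t) i| := by
    set v := Dv (wS w) (cS w c δ) j t - Dv (wS w) (cS w c 0) j t
    conv_lhs => rw [← (EuclideanSpace.basisFun (Fin (n + 2)) ℝ).sum_repr v]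
    refine (norm_sum_le _ _).trans (Finset.sum_le_sum fun i _ => ?_)
    rw [norm_smul, (EuclideanSpace.basisFun (Fin (n + 2)) ℝ).orthonormal.1 i]
    simp
  have h2 : ∑ i, |(Dv (wS w) (cS w c δ) j t - Dv (wS w) (cS w c 0) j t) i| ≤ δ * B := by
    simp only [Dv, PiLp.sub_apply, Fin.sum_univ_succ, Fin.succ_zero_eq_one, sc_step_zero,
      sc_step_one, sc_step_succ, sub_self, abs_zero, zero_add, zero_mul, sub_zero, abs_mul,
      abs_of_pos hδ]
    rw [← Finset.mul_sum]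
    refine mul_le_mul_of_nonneg_left ?_ hδ.le
    refine le_trans (Finset.sum_le_sum fun i _ => abs_sc_le _ _ j t) ?_
    exact Finset.single_le_sum (f := fun j => ∑ i : Fin n,
      ∑ a, ((2 * w a : ℕ) : ℝ) ^ j * ‖c i a / (1 - 4 * (w a : ℂ) ^ 2)‖)
      (fun j _ => by positivity) (Finset.mem_range.2 (by omega))
  have h3 : δ * B < ε := by
    simp only [δ]
    rw [div_mul_eq_mul_div, div_lt_iff₀ (by positivity)]
    nlinarith
  linarith

theorem isLeast_mu (n : ℕ) (hn : 4 ≤ n) : IsLeast {m | 1 ≤ m ∧ Perturbable n m} 1 := by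
  obtain ⟨m, rfl⟩ : ∃ m, n = m + 2 := ⟨n - 2, by omega⟩
  exact ⟨⟨le_rfl, perturbable_one m (by omega)⟩, fun _ h => h.1⟩

theorem mu_eq_one (n : ℕ) (hn : 4 ≤ n) : mu n = 1 :=
  (isLeast_mu n hn).csInf_eq

end Pool.Agent.H626Z.Frenet
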